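import Mathlib

set_option autoImplicit false

/-!
# A lower bound for the Hausdorff dimension of a Cantor set with prescribed denominators

For a rapidly increasing sequence `Q` of positive integers, the set of the `x` with
`Q k * x ∈ [0, 1/16]` modulo `1` for all `k` contains a set of Hausdorff dimension one.
-/

open Filter Set Topology

namespace Pool.Agent.KS6_11.DiscOrb

/-- rapidly increasing denominators -/
structure Fast (Q : ℕ → ℕ) : Prop where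
  zero : Q 0 = 1
  ratio : ∀ k, 64 * Q k ≤ Q (k + 1)
  big : ∀ k, 4 ^ (k ^ 2) ≤ Q k

variable {Q : ℕ → ℕ}

lemma Fast.pos (h : Fast Q) (k : ℕ) : 0 < Q k := lt_of_lt_of_le (by positivity) (h.big k)

/-- the number of the choices in the `k`-th step -/
def M (Q : ℕ → ℕ) (k : ℕ) : ℕ := Q (k + 1) / (32 * Q k)

lemma Fast.M_pos (h : Fast Q) (k : ℕ) : 0 < M Q k := by
  apply Nat.div_pos
  · have := h.ratio k; omega
  · have := h.pos k; omega

lemma M_le (h : Fast Q) (k : ℕ) : (M Q k : ℝ) ≤ (Q (k + 1) : ℝ) / (32 * Q k) := by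
  have := Nat.cast_div_le (α := ℝ) (m := Q (k + 1)) (n := 32 * Q k)
  push_cast at this
  exact this

lemma M_ge (h : Fast Q) (k : ℕ) : (Q (k + 1) : ℝ) / (64 * Q k) ≤ M Q k := by
  have hQ : (0 : ℝ) < Q k := by exact_mod_cast h.pos k
  have h1 : Q (k + 1) < (M Q k + 1) * (32 * Q k) := by
    exact (Nat.div_lt_iff_lt_mul (by have := h.pos k; omega)).1 (Nat.lt_succ_self _)
  have h2 : (Q (k + 1) : ℝ) < (M Q k + 1) * (32 * Q k) := by exact_mod_cast h1
  have h3 : (1 : ℝ) ≤ M Q k := by exact_mod_cast h.M_pos k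
  rw [div_le_iff₀ (by positivity)]
  nlinarith

/-- the products -/
def P (Q : ℕ → ℕ) (k : ℕ) : ℕ := ∏ i ∈ Finset.range k, M Q i

lemma P_succ (k : ℕ) : P Q (k + 1) = P Q k * M Q k := Finset.prod_range_succ _ _

lemma Fast.P_pos (h : Fast Q) (k : ℕ) : 0 < P Q k := Finset.prod_pos fun i _ => h.M_pos i

/-- the first digits -/
noncomputable def nn (Q : ℕ → ℕ) (y : ℝ) (k : ℕ) : ℕ := ⌊y * P Q k⌋₊

/-- the `k`-th digit -/
noncomputable def dg (Q : ℕ → ℕ) (y : ℝ) (k : ℕ) : ℕ := nn Q y (k + 1) - nn Q y k * M Q k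

lemma nn_mul_le {y : ℝ} (hy : 0 ≤ y) (k : ℕ) : nn Q y k * M Q k ≤ nn Q y (k + 1) := by
  apply Nat.le_floor
  push_cast
  rw [P_succ]
  push_cast
  rw [← mul_assoc]
  exact mul_le_mul_of_nonneg_right (Nat.floor_le (by positivity)) (Nat.cast_nonneg _)

lemma dg_lt (h : Fast Q) {y : ℝ} (hy : 0 ≤ y) (k : ℕ) : dg Q y k < M Q k := by
  unfold dg
  have h1 : nn Q y (k + 1) < (nn Q y k + 1) * M Q k := by
    apply (Nat.floor_lt (by positivity)).2
    push_cast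
    rw [P_succ]
    push_cast
    rw [← mul_assoc]
    have hM : (0 : ℝ) < M Q k := by exact_mod_cast h.M_pos k
    exact mul_lt_mul_of_pos_right (Nat.lt_floor_add_one _) hM
  have h2 := nn_mul_le (Q := Q) hy k
  rw [add_mul, one_mul] at h1
  omega

/-- the numerators -/
noncomputable def jj (Q : ℕ → ℕ) (y : ℝ) : ℕ → ℕ
  | 0 => 0
  | k + 1 => ⌈(Q (k + 1) : ℝ) * jj Q y k / Q k⌉₊ + dg Q y k

lemma jj_le (h : Fast Q) {y : ℝ} (k : ℕ) :
    (jj Q y k : ℝ) / Q k ≤ jj Q y (k + 1) / Q (k + 1) := by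
  have hQ : (0 : ℝ) < Q k := by exact_mod_cast h.pos k
  have hQ1 : (0 : ℝ) < Q (k + 1) := by exact_mod_cast h.pos (k + 1)
  rw [le_div_iff₀ hQ1, jj]
  push_cast
  have h1 := Nat.le_ceil ((Q (k + 1) : ℝ) * jj Q y k / Q k)
  have h2 : (0 : ℝ) ≤ dg Q y k := Nat.cast_nonneg _
  calc (jj Q y k : ℝ) / Q k * Q (k + 1) = (Q (k + 1) : ℝ) * jj Q y k / Q k := by ring
    _ ≤ _ := by linarith

lemma jj_up (h : Fast Q) {y : ℝ} (hy : 0 ≤ y) (k : ℕ) :
    (jj Q y (k + 1) : ℝ) / Q (k + 1) + 1 / (16 * Q (k + 1)) ≤ jj Q y k / Q k + 1 / (16 * Q k) := by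
  have hQ : (0 : ℝ) < Q k := by exact_mod_cast h.pos k
  have hQ1 : (0 : ℝ) < Q (k + 1) := by exact_mod_cast h.pos (k + 1)
  have h1 : (⌈(Q (k + 1) : ℝ) * jj Q y k / Q k⌉₊ : ℝ) < (Q (k + 1) : ℝ) * jj Q y k / Q k + 1 :=
    Nat.ceil_lt_add_one (by positivity)
  have h2 : (dg Q y k : ℝ) + 1 ≤ M Q k := by exact_mod_cast dg_lt h hy k
  have h3 := M_le h k
  have h4 : (64 : ℝ) * Q k ≤ Q (k + 1) := by exact_mod_cast h.ratio k
  have h5 : (2 : ℝ) ≤ (Q (k + 1) : ℝ) / (32 * Q k) := by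
    rw [le_div_iff₀ (by positivity)]; linarith
  have h6 : (jj Q y (k + 1) : ℝ) + 1 / 16 ≤
      (Q (k + 1) : ℝ) * (jj Q y k / Q k + 1 / (16 * Q k)) := by
    rw [jj]
    push_cast
    have e : (Q (k + 1) : ℝ) * (jj Q y k / Q k + 1 / (16 * Q k))
        = (Q (k + 1) : ℝ) * jj Q y k / Q k + 2 * ((Q (k + 1) : ℝ) / (32 * Q k)) := by
      field_simp
      ring
    rw [e]
    linarith
  have e2 : (jj Q y (k + 1) : ℝ) / Q (k + 1) + 1 / (16 * Q (k + 1))
      = (jj Q y (k + 1) + 1 / 16) / Q (k + 1) := by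
    field_simp
  rw [e2, div_le_iff₀ hQ1, mul_comm]
  exact h6

lemma jj_mono (h : Fast Q) {y : ℝ} : Monotone fun k => (jj Q y k : ℝ) / Q k :=
  monotone_nat_of_le_succ fun k => jj_le h k

lemma jj_anti (h : Fast Q) {y : ℝ} (hy : 0 ≤ y) :
    Antitone fun k => (jj Q y k : ℝ) / Q k + 1 / (16 * Q k) :=
  antitone_nat_of_succ_le fun k => jj_up h hy k

/-- the point -/
noncomputable def pt (Q : ℕ → ℕ) (y : ℝ) : ℝ := ⨆ k, (jj Q y k : ℝ) / Q k

lemma bdd (h : Fast Q) {y : ℝ} (hy : 0 ≤ y) (n : ℕ) (k : ℕ) :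
    (jj Q y k : ℝ) / Q k ≤ jj Q y n / Q n + 1 / (16 * Q n) := by
  rcases le_total k n with hkn | hkn
  · have h1 := jj_mono (y := y) h hkn
    have h2 : (0 : ℝ) ≤ 1 / (16 * Q n) := by positivity
    simp only at h1
    linarith
  · have h1 := jj_anti h hy hkn
    have h2 : (0 : ℝ) ≤ 1 / (16 * Q k) := by positivity
    simp only at h1
    linarith

lemma le_pt (h : Fast Q) {y : ℝ} (hy : 0 ≤ y) (n : ℕ) : (jj Q y n : ℝ) / Q n ≤ pt Q y :=
  le_ciSup (f := fun k => (jj Q y k : ℝ) / Q k)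
    ⟨_, by rintro _ ⟨k, rfl⟩; exact bdd h hy 0 k⟩ n

lemma pt_le (h : Fast Q) {y : ℝ} (hy : 0 ≤ y) (n : ℕ) :
    pt Q y ≤ (jj Q y n : ℝ) / Q n + 1 / (16 * Q n) :=
  ciSup_le fun k => bdd h hy n k

lemma jj_congr {y y' : ℝ} {k : ℕ} (h : ∀ i ≤ k, nn Q y i = nn Q y' i) : jj Q y k = jj Q y' k := by
  induction k with
  | zero => rfl
  | succ k ih =>
    have h1 := ih fun i hi => h i (by omega)
    rw [jj, jj, h1]
    unfold dg
    rw [h k (by omega), h (k + 1) le_rfl]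

lemma P_ge (h : Fast Q) (k : ℕ) : (Q k : ℝ) ≤ 64 ^ k * P Q k := by
  induction k with
  | zero => simp [P, h.zero]
  | succ k ih =>
    have hQ : (0 : ℝ) < Q k := by exact_mod_cast h.pos k
    have h1 := M_ge h k
    rw [div_le_iff₀ (by positivity)] at h1
    have hM : (0 : ℝ) ≤ M Q k := Nat.cast_nonneg _
    rw [P_succ]
    push_cast
    calc (Q (k + 1) : ℝ) ≤ M Q k * (64 * Q k) := h1
      _ ≤ M Q k * (64 * (64 ^ k * P Q k)) := by gcongr
      _ = 64 ^ (k + 1) * (P Q k * M Q k) := by ring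

/-- a constant for the Hölder inequality -/
lemma exists_const (h : Fast Q) {β : ℝ} (hβ0 : 0 < β) (hβ1 : β < 1) :
    ∃ C : ℝ, 0 < C ∧ ∀ k, (Q k : ℝ) ^ β ≤ C * P Q k := by
  -- `64 ^ k ≤ C * Q k ^ (1 - β)`
  obtain ⟨C, hC, h1⟩ : ∃ C : ℝ, 0 < C ∧ ∀ k : ℕ, (64 : ℝ) ^ k ≤ C * (Q k : ℝ) ^ (1 - β) := by
    have h1β : 0 < 1 - β := by linarith
    refine ⟨(4 : ℝ) ^ (9 / (4 * (1 - β))), by positivity, fun k => ?_⟩
    have h2 : ((4 : ℝ) ^ ((k : ℝ) ^ 2)) ^ (1 - β) ≤ (Q k : ℝ) ^ (1 - β) := by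
      apply Real.rpow_le_rpow (by positivity) _ h1β.le
      have := h.big k
      have h3 : ((4 ^ (k ^ 2) : ℕ) : ℝ) ≤ Q k := by exact_mod_cast this
      refine le_trans (le_of_eq ?_) h3
      rw [Nat.cast_pow, ← Real.rpow_natCast _ (k ^ 2)]
      push_cast
      rfl
    refine le_trans ?_ (mul_le_mul_of_nonneg_left h2 (by positivity))
    rw [← Real.rpow_mul (by norm_num), ← Real.rpow_add (by norm_num)]
    have e : (64 : ℝ) ^ k = (4 : ℝ) ^ (3 * (k : ℝ)) := by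
      rw [Real.rpow_mul (by norm_num), Real.rpow_natCast]
      norm_num
    rw [e]
    apply Real.rpow_le_rpow_of_exponent_le (by norm_num)
    have h3 : 0 ≤ ((1 - β) * k - 3 / 2) ^ 2 / (1 - β) := by positivity
    have h4 : ((1 - β) * k - 3 / 2) ^ 2 / (1 - β)
        = 9 / (4 * (1 - β)) + (k : ℝ) ^ 2 * (1 - β) - 3 * k := by
      field_simp
      ring
    linarith
  refine ⟨C, hC, fun k => ?_⟩
  have hQ : (0 : ℝ) < Q k := by exact_mod_cast h.pos k
  have h2 := P_ge h k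
  have h3 : (Q k : ℝ) = (Q k : ℝ) ^ β * (Q k : ℝ) ^ (1 - β) := by
    rw [← Real.rpow_add hQ]
    norm_num
  have h4 : (0 : ℝ) < (Q k : ℝ) ^ (1 - β) := by positivity
  have h5 : (Q k : ℝ) ^ β * (Q k : ℝ) ^ (1 - β) ≤ C * P Q k * (Q k : ℝ) ^ (1 - β) := by
    rw [← h3]
    refine h2.trans ?_
    calc (64 : ℝ) ^ k * P Q k ≤ C * (Q k : ℝ) ^ (1 - β) * P Q k := by gcongr; exact h1 k
      _ = _ := by ring
  exact le_of_mul_le_mul_right h5 h4

lemma two_pow_le_P (h : Fast Q) (k : ℕ) : 2 ^ k ≤ P Q k := by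
  induction k with
  | zero => simp [P]
  | succ k ih =>
    have h1 : 2 ≤ M Q k := by
      unfold M
      rw [Nat.le_div_iff_mul_le (by have := h.pos k; omega)]
      have := h.ratio k
      omega
    rw [P_succ, pow_succ]
    exact Nat.mul_le_mul ih h1

lemma key (h : Fast Q) {y y' : ℝ} (hy : 0 ≤ y) (hyy : y < y') (hy' : y' < 1) :
    ∃ k d : ℕ, 1 ≤ d ∧ d ≤ M Q k ∧ (y' - y) * P Q (k + 1) ≤ d + 1 ∧
      (d : ℝ) / (2 * Q (k + 1)) ≤ pt Q y' - pt Q y := by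
  have hy0' : 0 ≤ y' := hy.trans hyy.le
  have hex : ∃ k, nn Q y k ≠ nn Q y' k := by
    by_contra hcon
    push Not at hcon
    obtain ⟨k, hk⟩ := exists_nat_one_div_lt (sub_pos.2 hyy)
    have h1 : ((2 : ℝ) ^ k) ≤ P Q k := by exact_mod_cast two_pow_le_P h k
    have h2 : (k : ℝ) + 1 ≤ 2 ^ k := by
      have := Nat.lt_two_pow_self (n := k)
      exact_mod_cast this
    have h3 := Nat.floor_le (a := y * P Q k) (by positivity)
    have h4 := Nat.lt_floor_add_one (y' * P Q k)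
    have h5 : (⌊y * P Q k⌋₊ : ℝ) = ⌊y' * P Q k⌋₊ := by exact_mod_cast hcon k
    have h6 : (y' - y) * P Q k < 1 := by
      rw [sub_mul]; linarith
    have h7 : (1 : ℝ) ≤ (y' - y) * P Q k := by
      rw [div_lt_iff₀ (by positivity)] at hk
      have := sub_pos.2 hyy
      calc (1 : ℝ) ≤ (y' - y) * (k + 1) := hk.le
        _ ≤ (y' - y) * P Q k := by gcongr; linarith
    linarith
  classical
  set m := Nat.find hex with hm
  have hspec : nn Q y m ≠ nn Q y' m := Nat.find_spec hex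
  have hmin : ∀ i < m, nn Q y i = nn Q y' i := fun i hi => by
    have := Nat.find_min hex hi
    push Not at this
    exact this
  have h0 : nn Q y 0 = nn Q y' 0 := by
    have e : ∀ z : ℝ, z < 1 → nn Q z 0 = 0 := by
      intro z hz
      unfold nn P
      rw [Finset.range_zero, Finset.prod_empty, Nat.cast_one, mul_one, Nat.floor_eq_zero]
      exact hz
    rw [e y (hyy.trans hy'), e y' hy']
  obtain ⟨k, hk⟩ : ∃ k, m = k + 1 := by
    rcases Nat.eq_zero_or_pos m with h1 | h1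
    · rw [h1] at hspec
      exact absurd h0 hspec
    · exact ⟨m - 1, by omega⟩
  rw [hk] at hspec hmin
  have hle : nn Q y (k + 1) ≤ nn Q y' (k + 1) := Nat.floor_le_floor (by gcongr)
  have hk' : nn Q y k = nn Q y' k := hmin k (by omega)
  have hj : jj Q y k = jj Q y' k := jj_congr fun i hi => hmin i (by omega)
  have hg1 := nn_mul_le (Q := Q) hy k
  have hg2 := nn_mul_le (Q := Q) hy0' k
  obtain ⟨d, hd⟩ : ∃ d, nn Q y' (k + 1) = nn Q y (k + 1) + d := ⟨_, (Nat.add_sub_cancel' hle).symm⟩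
  have hdg : dg Q y' k = dg Q y k + d := by
    unfold dg
    rw [← hk', hd]
    omega
  have hjd : jj Q y' (k + 1) = jj Q y (k + 1) + d := by
    rw [jj, jj, hj, hdg]
    omega
  have hd1 : 1 ≤ d := by omega
  have hQ1 : (0 : ℝ) < Q (k + 1) := by exact_mod_cast h.pos (k + 1)
  refine ⟨k, d, hd1, ?_, ?_, ?_⟩
  · have := dg_lt h hy0' k
    omega
  · have h3 := Nat.floor_le (a := y * P Q (k + 1)) (by positivity)
    have h4 := Nat.lt_floor_add_one (y' * P Q (k + 1))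
    have h5 : (⌊y' * P Q (k + 1)⌋₊ : ℝ) = ⌊y * P Q (k + 1)⌋₊ + d := by exact_mod_cast hd
    rw [sub_mul]
    linarith
  · have h3 := le_pt h hy0' (k + 1)
    have h4 := pt_le h hy (k + 1)
    have h5 : (jj Q y' (k + 1) : ℝ) = jj Q y (k + 1) + d := by exact_mod_cast hjd
    have h6 : (1 : ℝ) ≤ d := by exact_mod_cast hd1
    have h7 : (d : ℝ) / (2 * Q (k + 1)) ≤ d / Q (k + 1) - 1 / (16 * Q (k + 1)) := by
      have e : (d : ℝ) / Q (k + 1) - 1 / (16 * Q (k + 1)) = (d - 1 / 16) / Q (k + 1) := by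
        field_simp
      rw [e, div_le_div_iff₀ (by positivity) hQ1]
      nlinarith
    rw [h5, add_div] at h3
    linarith

lemma holder (h : Fast Q) {β : ℝ} (hβ0 : 0 < β) (hβ1 : β < 1) :
    ∃ C : ℝ, 0 < C ∧ ∀ y y' : ℝ, 0 ≤ y → y < y' → y' < 1 →
      pt Q y < pt Q y' ∧ y' - y ≤ C * (pt Q y' - pt Q y) ^ β := by
  obtain ⟨C, hC, hC'⟩ := exists_const h hβ0 hβ1
  refine ⟨256 * C, by positivity, fun y y' hy hyy hy' => ?_⟩
  obtain ⟨k, d, hd1, hdM, h1, h2⟩ := key h hy hyy hy'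
  have hQ : (0 : ℝ) < Q k := by exact_mod_cast h.pos k
  have hQ1 : (0 : ℝ) < Q (k + 1) := by exact_mod_cast h.pos (k + 1)
  have hP : (0 : ℝ) < P Q k := by exact_mod_cast h.P_pos k
  have hM : (0 : ℝ) < M Q k := by exact_mod_cast h.M_pos k
  have hd : (1 : ℝ) ≤ d := by exact_mod_cast hd1
  have hdM' : (d : ℝ) ≤ M Q k := by exact_mod_cast hdM
  have hpos : (0 : ℝ) < d / (2 * Q (k + 1)) := by positivity
  refine ⟨by linarith, ?_⟩
  have h3 : y' - y ≤ 2 * (d / M Q k) / P Q k := by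
    rw [P_succ] at h1
    push_cast at h1
    rw [le_div_iff₀ hP, mul_div_assoc', le_div_iff₀ hM, mul_assoc]
    linarith
  have h4 : (d : ℝ) / M Q k ≤ (d / M Q k) ^ β := by
    have h5 : (d : ℝ) / M Q k ≤ 1 := (div_le_one hM).2 hdM'
    have h6 : (0 : ℝ) < d / M Q k := by positivity
    calc (d : ℝ) / M Q k = (d / M Q k) ^ (1 : ℝ) := (Real.rpow_one _).symm
      _ ≤ (d / M Q k) ^ β := Real.rpow_le_rpow_of_exponent_ge h6 h5 hβ1.le
  have h5 : ((d : ℝ) / M Q k) ^ β ≤ (128 * Q k) ^ β * (d / (2 * Q (k + 1))) ^ β := by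
    rw [← Real.mul_rpow (by positivity) (by positivity)]
    apply Real.rpow_le_rpow (by positivity) _ hβ0.le
    have h6 := M_ge h k
    rw [div_le_iff₀ hM]
    have e : 128 * (Q k : ℝ) * (d / (2 * Q (k + 1))) * (Q (k + 1) / (64 * Q k)) = d := by
      field_simp
      ring
    calc (d : ℝ) = 128 * (Q k : ℝ) * (d / (2 * Q (k + 1))) * (Q (k + 1) / (64 * Q k)) := e.symm
      _ ≤ _ := by gcongr
  have h6 : ((128 : ℝ) * Q k) ^ β ≤ 128 * (C * P Q k) := by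
    rw [Real.mul_rpow (by norm_num) hQ.le]
    have h7 : (128 : ℝ) ^ β ≤ 128 := by
      calc (128 : ℝ) ^ β ≤ 128 ^ (1 : ℝ) := Real.rpow_le_rpow_of_exponent_le (by norm_num) hβ1.le
        _ = 128 := Real.rpow_one _
    have h8 := hC' k
    exact mul_le_mul h7 h8 (by positivity) (by norm_num)
  have h7 : (d / (2 * Q (k + 1)) : ℝ) ^ β ≤ (pt Q y' - pt Q y) ^ β :=
    Real.rpow_le_rpow hpos.le h2 hβ0.le
  calc y' - y ≤ 2 * (d / M Q k) / P Q k := h3
    _ ≤ 2 * ((128 * (C * P Q k)) * (pt Q y' - pt Q y) ^ β) / P Q k := by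
        have h8 : (d : ℝ) / M Q k ≤ (128 * (C * P Q k)) * (pt Q y' - pt Q y) ^ β :=
          h4.trans (h5.trans (mul_le_mul h6 h7 (by positivity) (by positivity)))
        gcongr
    _ = 256 * C * (pt Q y' - pt Q y) ^ β := by
        field_simp
        ring

lemma le_dimH (h : Fast Q) {β : ℝ} (hβ0 : 0 < β) (hβ1 : β < 1) :
    ENNReal.ofReal β ≤ dimH (pt Q '' Ico 0 1) := by
  obtain ⟨C, hC, hh⟩ := holder h hβ0 hβ1
  have hinj : InjOn (pt Q) (Ico 0 1) := by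
    intro y hy y' hy' he
    rcases lt_trichotomy y y' with hlt | heq | hgt
    · exact absurd he (hh y y' hy.1 hlt hy'.2).1.ne
    · exact heq
    · exact absurd he (hh y' y hy'.1 hgt hy.2).1.ne'
  set G := Function.invFunOn (pt Q) (Ico (0 : ℝ) 1) with hG
  have hGpt : ∀ y ∈ Ico (0 : ℝ) 1, G (pt Q y) = y := fun y hy => hinj.leftInvOn_invFunOn hy
  have habs : ∀ y ∈ Ico (0 : ℝ) 1, ∀ y' ∈ Ico (0 : ℝ) 1,
      |y - y'| ≤ C * |pt Q y - pt Q y'| ^ β := by
    intro y hy y' hy'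
    rcases lt_trichotomy y y' with hlt | heq | hgt
    · have := hh y y' hy.1 hlt hy'.2
      rw [abs_sub_comm, abs_of_pos (sub_pos.2 hlt), abs_sub_comm, abs_of_pos (sub_pos.2 this.1)]
      exact this.2
    · rw [heq, sub_self, abs_zero, sub_self, abs_zero, Real.zero_rpow hβ0.ne', mul_zero]
    · have := hh y' y hy'.1 hgt hy.2
      rw [abs_of_pos (sub_pos.2 hgt), abs_of_pos (sub_pos.2 this.1)]
      exact this.2
  have hhold : HolderOnWith C.toNNReal β.toNNReal G (pt Q '' Ico 0 1) := by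
    rintro _ ⟨y, hy, rfl⟩ _ ⟨y', hy', rfl⟩
    rw [hGpt y hy, hGpt y' hy', edist_dist, edist_dist, Real.dist_eq, Real.dist_eq,
      Real.coe_toNNReal _ hβ0.le, ENNReal.ofReal_rpow_of_nonneg (abs_nonneg _) hβ0.le]
    have : ((C.toNNReal : NNReal) : ENNReal) = ENNReal.ofReal C := rfl
    rw [this, ← ENNReal.ofReal_mul hC.le]
    exact ENNReal.ofReal_le_ofReal (habs y hy y' hy')
  have h1 := hhold.dimH_image_le (Real.toNNReal_pos.2 hβ0)
  have h2 : G '' (pt Q '' Ico 0 1) = Ico 0 1 := by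
    rw [← image_comp]
    ext z
    constructor
    · rintro ⟨y, hy, rfl⟩
      simp only [Function.comp]
      rw [hGpt y hy]
      exact hy
    · intro hz
      exact ⟨z, hz, hGpt z hz⟩
  rw [h2, Real.dimH_of_nonempty_interior (by rw [interior_Ico]; exact nonempty_Ioo.2 one_pos)] at h1
  rw [Module.finrank_self, Nat.cast_one] at h1
  have h3 : ((β.toNNReal : NNReal) : ENNReal) = ENNReal.ofReal β := rfl
  rw [h3] at h1
  have h4 : ENNReal.ofReal β ≠ 0 := by simpa using hβ0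
  rw [ENNReal.le_div_iff_mul_le (Or.inl h4) (Or.inl ENNReal.ofReal_ne_top), one_mul] at h1
  exact h1

theorem one_le_dimH (h : Fast Q) : 1 ≤ dimH (pt Q '' Ico 0 1) := by
  apply le_of_forall_lt
  intro c hc
  have hc1 : c ≠ ⊤ := ne_top_of_lt hc
  have hcR : c.toReal < 1 := by
    rw [← ENNReal.toReal_one]
    exact (ENNReal.toReal_lt_toReal hc1 (by norm_num)).2 hc
  obtain ⟨β, h1, h2⟩ := exists_between hcR
  have hβ : 0 < β := lt_of_le_of_lt ENNReal.toReal_nonneg h1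
  refine lt_of_lt_of_le ?_ (le_dimH h hβ h2)
  rwa [ENNReal.lt_ofReal_iff_toReal_lt hc1]

/-- all `Q k * x` are in `[0, 1/16]` modulo `1` -/
lemma pt_good (h : Fast Q) {y : ℝ} (hy : 0 ≤ y) (k : ℕ) :
    ∃ (t : ℝ) (j : ℕ), 0 ≤ t ∧ t ≤ 1 / 16 ∧ (Q k : ℝ) * pt Q y = j + t := by
  have hQ : (0 : ℝ) < Q k := by exact_mod_cast h.pos k
  have h1 := le_pt h hy k
  have h2 := pt_le h hy k
  rw [div_le_iff₀ hQ] at h1
  refine ⟨Q k * pt Q y - jj Q y k, jj Q y k, by linarith, ?_, by ring⟩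
  have e : (jj Q y k : ℝ) / Q k + 1 / (16 * Q k) = (jj Q y k + 1 / 16) / Q k := by
    field_simp
  rw [e, le_div_iff₀ hQ] at h2
  linarith

lemma pt_bounds (h : Fast Q) {y : ℝ} (hy : 0 ≤ y) : 0 ≤ pt Q y ∧ pt Q y ≤ 1 / 2 := by
  have h1 := le_pt h hy 0
  have h2 := pt_le h hy 0
  simp only [jj, Nat.cast_zero, zero_div, h.zero, Nat.cast_one, mul_one, zero_add] at h1 h2
  exact ⟨h1, h2.trans (by norm_num)⟩

end Pool.Agent.KS6_11.DiscOrb
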