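import Pool.Agent.KS6_11.DiscOrb.Dim
import Pool.Graph.R_pool_sql_team_seeded_3997aac3.Q289.QW.Count
import Pool.Graph.R_pool_sql_team_seeded_47a924f7.Results.MP_7c4bf8_an.DiscreteOrbitsDimOne

set_option autoImplicit false

/-!
# The cocycle over an arbitrary irrational rotation
-/

open Filter Set Topology MeasureTheory

namespace Pool.Agent.KS6_11.DiscOrb

open Pool.Agent.Results.MP_7c4bf8_an.DiscreteOrbitsDimOne (birkhoff sinT sinT_coe continuous_sinT
  abs_sinT_le zsmul_coe int_coe b b_pos b_eq sum_b summable_b sin_sub_le sin_inc sin_dec)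

/-- rapidly improving rational approximations of `α` -/
structure Data (α : ℝ) (Q : ℕ → ℕ) (p : ℕ → ℤ) : Prop where
  fast : Fast Q
  ne : ∀ k, (Q k : ℝ) * α - p k ≠ 0
  le : ∀ k, |(Q k : ℝ) * α - p k| ≤ 1 / Q k
  step : ∀ k, 6 * |(Q (k + 1) : ℝ) * α - p (k + 1)| ≤ |(Q k : ℝ) * α - p k|

lemma irr_ne {α : ℝ} (hα : Irrational α) {q : ℕ} (hq : 0 < q) (p : ℤ) : (q : ℝ) * α - p ≠ 0 := by
  intro h
  have h1 : (q : ℝ) ≠ 0 := by exact_mod_cast hq.ne'
  apply hα
  refine ⟨(p : ℚ) / q, ?_⟩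
  push_cast
  rw [div_eq_iff h1]
  linarith

theorem exists_data {α : ℝ} (hα : Irrational α) : ∃ Q p, Data α Q p := by
  classical
  have hstep : ∀ (k : ℕ) (r : ℚ), ∃ r' : ℚ, 64 * r.den ≤ r'.den ∧ 4 ^ ((k + 1) ^ 2) ≤ r'.den ∧
      6 / |(r.den : ℝ) * α - r.num| ≤ r'.den ∧ |α - r'| ≤ 1 / (r'.den : ℝ) ^ 2 := by
    intro k r
    obtain ⟨r', h1, h2⟩ := Pool.Agent.Q289.QW.exists_approx hα (max (64 * r.den)
      (max (4 ^ ((k + 1) ^ 2)) ⌈6 / |(r.den : ℝ) * α - r.num|⌉₊))
    refine ⟨r', ?_, ?_, ?_, h2⟩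
    · exact (le_max_left _ _).trans h1.le
    · exact (le_max_left _ _).trans ((le_max_right _ _).trans h1.le)
    · refine (Nat.le_ceil _).trans ?_
      exact_mod_cast (le_max_right _ _).trans ((le_max_right _ _).trans h1.le)
  choose nxt hn1 hn2 hn3 hn4 using hstep
  let rr : ℕ → ℚ := fun k => Nat.rec ((round α : ℤ) : ℚ) (fun k r => nxt k r) k
  have hr0 : rr 0 = ((round α : ℤ) : ℚ) := rfl
  have hrs : ∀ k, rr (k + 1) = nxt k (rr k) := fun k => rfl
  have hne : ∀ k, ((rr k).den : ℝ) * α - (rr k).num ≠ 0 := fun k =>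
    irr_ne hα (rr k).den_pos _
  have hdist : ∀ r : ℚ, |(r.den : ℝ) * α - r.num| = r.den * |α - r| := by
    intro r
    have hd : (0 : ℝ) < r.den := by exact_mod_cast r.den_pos
    rw [← abs_of_pos hd, ← abs_mul, mul_sub, abs_of_pos hd]
    congr 2
    have := Rat.den_mul_eq_num r
    exact_mod_cast this.symm
  have hle : ∀ k, |((rr k).den : ℝ) * α - (rr k).num| ≤ 1 / (rr k).den := by
    intro k
    cases k with
    | zero =>
      rw [hr0]
      have := abs_sub_round α
      simp only [Rat.den_intCast, Nat.cast_one, one_mul, Rat.num_intCast, div_one]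
      linarith
    | succ k =>
      rw [hdist, hrs]
      have h1 := hn4 k (rr k)
      have hd : (0 : ℝ) < (nxt k (rr k)).den := by exact_mod_cast (nxt k (rr k)).den_pos
      calc ((nxt k (rr k)).den : ℝ) * |α - (nxt k (rr k))|
          ≤ (nxt k (rr k)).den * (1 / ((nxt k (rr k)).den : ℝ) ^ 2) := by gcongr
        _ = 1 / (nxt k (rr k)).den := by field_simp
  refine ⟨fun k => (rr k).den, fun k => (rr k).num, ⟨?_, fun k => ?_, fun k => ?_⟩, hne, hle,
    fun k => ?_⟩
  · show (rr 0).den = 1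
    rw [hr0]; simp
  · show 64 * (rr k).den ≤ (rr (k + 1)).den
    rw [hrs]
    exact hn1 k (rr k)
  · show 4 ^ (k ^ 2) ≤ (rr k).den
    cases k with
    | zero =>
      have := (rr 0).den_pos
      norm_num
      omega
    | succ k =>
      rw [hrs]
      exact hn2 k (rr k)
  · have h1 := hle (k + 1)
    have h2 : 6 / |((rr k).den : ℝ) * α - (rr k).num| ≤ (rr (k + 1)).den := hn3 k (rr k)
    have h3 : 0 < |((rr k).den : ℝ) * α - (rr k).num| := abs_pos.2 (hne k)
    have h4 : (0 : ℝ) < (rr (k + 1)).den := by exact_mod_cast (rr (k + 1)).den_pos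
    rw [div_le_iff₀ h3] at h2
    rw [le_div_iff₀ h4] at h1
    have h5 : 6 * |((rr (k + 1)).den : ℝ) * α - (rr (k + 1)).num| * (rr (k + 1)).den
        ≤ |((rr k).den : ℝ) * α - (rr k).num| * (rr (k + 1)).den := by linarith
    exact le_of_mul_le_mul_right h5 h4

noncomputable section

variable {α : ℝ} {Q : ℕ → ℕ} {p : ℕ → ℤ}

/-- the distance of `Q k * α` from the integer `p k` -/
def dl (α : ℝ) (Q : ℕ → ℕ) (p : ℕ → ℤ) (k : ℕ) : ℝ := |(Q k : ℝ) * α - p k|

/-- its sign -/
def sg (α : ℝ) (Q : ℕ → ℕ) (p : ℕ → ℤ) (k : ℕ) : ℤ := if 0 < (Q k : ℝ) * α - p k then 1 else -1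

lemma sg_cases (k : ℕ) : sg α Q p k = 1 ∨ sg α Q p k = -1 := by
  unfold sg; split <;> simp

lemma sg_mul (k : ℕ) :
    ((sg α Q p k : ℤ) : ℝ) * dl α Q p k = (Q k : ℝ) * α - p k := by
  unfold sg dl
  split
  · rename_i h
    rw [abs_of_pos h]; simp
  · rename_i h
    rw [abs_of_nonpos (not_lt.1 h)]; push_cast; ring

lemma dl_pos (D : Data α Q p) (k : ℕ) : 0 < dl α Q p k := abs_pos.2 (D.ne k)

lemma dl_step (D : Data α Q p) (k : ℕ) : 6 * dl α Q p (k + 1) ≤ dl α Q p k := D.step k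

lemma dl_anti (D : Data α Q p) : Antitone (dl α Q p) :=
  antitone_nat_of_succ_le fun k => by
    have := dl_step D k
    have := dl_pos D (k + 1)
    linarith

lemma dl_le (D : Data α Q p) (k : ℕ) : dl α Q p k ≤ 1 / Q k := D.le k

lemma tendsto_dl (D : Data α Q p) : Tendsto (dl α Q p) atTop (𝓝 0) := by
  have h : Tendsto (fun k : ℕ => ((4 : ℝ)⁻¹) ^ k) atTop (𝓝 0) :=
    tendsto_pow_atTop_nhds_zero_of_lt_one (by norm_num) (by norm_num)
  refine squeeze_zero (fun k => (dl_pos D k).le) (fun k => (dl_le D k).trans ?_) h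
  have h1 : (4 : ℝ) ^ k ≤ Q k := by
    have h2 : (4 : ℝ) ^ (k ^ 2) ≤ Q k := by exact_mod_cast D.fast.big k
    refine le_trans ?_ h2
    apply pow_le_pow_right₀ (by norm_num)
    nlinarith
  rw [inv_pow, one_div]
  exact inv_anti₀ (by positivity) h1

lemma Q_smul (k : ℕ) (m : ℤ) :
    ((Q k : ℕ) : ℤ) • (m • (α : UnitAddCircle))
      = ((m * (sg α Q p k * dl α Q p k) : ℝ) : UnitAddCircle) := by
  rw [zsmul_coe, zsmul_coe, sg_mul]
  have h1 : (((Q k : ℕ) : ℤ) : ℝ) * (m * α) = m * ((Q k : ℝ) * α - p k) + ((m * p k : ℤ) : ℝ) := by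
    push_cast
    ring
  rw [h1, AddCircle.coe_add, int_coe, add_zero]

/-- the amplitudes -/
def A (α : ℝ) (Q : ℕ → ℕ) (p : ℕ → ℤ) (k : ℕ) : ℝ := b k / dl α Q p k

lemma A_pos (D : Data α Q p) (k : ℕ) : 0 < A α Q p k := div_pos (b_pos k) (dl_pos D k)

lemma A_mul (D : Data α Q p) (k : ℕ) : A α Q p k * dl α Q p k = b k :=
  div_mul_cancel₀ _ (dl_pos D k).ne'

lemma A_succ (D : Data α Q p) (k : ℕ) : 2 * A α Q p k ≤ A α Q p (k + 1) := by
  unfold A
  have h1 := dl_step D k
  have h2 := dl_pos D k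
  have h3 := dl_pos D (k + 1)
  have h4 : 2 * b k ≤ 6 * b (k + 1) := by
    unfold b
    push_cast
    have hk : (0 : ℝ) ≤ k := Nat.cast_nonneg k
    rw [mul_one_div, mul_one_div, div_le_div_iff₀ (by positivity) (by positivity)]
    nlinarith
  rw [mul_div_assoc', div_le_div_iff₀ h2 h3]
  have h5 := b_pos (k + 1)
  calc 2 * b k * dl α Q p (k + 1) ≤ 6 * b (k + 1) * dl α Q p (k + 1) := by gcongr
    _ = b (k + 1) * (6 * dl α Q p (k + 1)) := by ring
    _ ≤ b (k + 1) * dl α Q p k := by gcongr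

lemma sum_A (D : Data α Q p) (K : ℕ) :
    ∑ k ∈ Finset.range (K + 1), A α Q p k ≤ 2 * A α Q p K := by
  induction K with
  | zero => simp; linarith [A_pos D 0]
  | succ K ih =>
    rw [Finset.sum_range_succ]
    have := A_succ D K
    linarith

/-- the `k`-th term of the `m`-th Birkhoff sum -/
def term (α : ℝ) (Q : ℕ → ℕ) (p : ℕ → ℤ) (k : ℕ) (m : ℤ) (x : UnitAddCircle) : ℝ :=
  A α Q p k * (sg α Q p k * (sinT (((Q k : ℕ) : ℤ) • (x + m • (α : UnitAddCircle)))
    - sinT (((Q k : ℕ) : ℤ) • x)))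

lemma abs_sg (k : ℕ) : |((sg α Q p k : ℤ) : ℝ)| = 1 := by
  rcases sg_cases (α := α) (Q := Q) (p := p) k with h | h <;> rw [h] <;> simp

lemma term_abs_le (D : Data α Q p) (k : ℕ) (m : ℤ) (x : UnitAddCircle) :
    |term α Q p k m x| ≤ 2 * Real.pi * |(m : ℝ)| * b k := by
  obtain ⟨t, ht⟩ : ∃ t : ℝ, (t : UnitAddCircle) = ((Q k : ℕ) : ℤ) • x := by
    induction ((Q k : ℕ) : ℤ) • x using QuotientAddGroup.induction_on with
    | H s => exact ⟨s, rfl⟩
  unfold term
  rw [smul_add, Q_smul (α := α) (p := p), ← ht, ← AddCircle.coe_add, sinT_coe, sinT_coe, abs_mul, abs_mul, abs_sg,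
    one_mul, abs_of_pos (A_pos D k)]
  set w := (sg α Q p k : ℝ) * dl α Q p k with hw
  have habsw : |w| = dl α Q p k := by rw [hw, abs_mul, abs_sg, one_mul, abs_of_pos (dl_pos D k)]
  have h := sin_sub_le (2 * Real.pi * (t + m * w)) (2 * Real.pi * t)
  have h2 : |2 * Real.pi * (t + m * w) - 2 * Real.pi * t|
      = 2 * Real.pi * (|(m : ℝ)| * dl α Q p k) := by
    rw [show 2 * Real.pi * (t + m * w) - 2 * Real.pi * t = 2 * Real.pi * (m * w) by ring,
      abs_mul, abs_mul (m : ℝ), abs_of_pos Real.two_pi_pos, habsw]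
  rw [h2] at h
  have h4 := A_pos D k
  calc A α Q p k * _ ≤ A α Q p k * (2 * Real.pi * (|(m : ℝ)| * dl α Q p k)) := by gcongr
    _ = 2 * Real.pi * |(m : ℝ)| * (A α Q p k * dl α Q p k) := by ring
    _ = _ := by rw [A_mul D]

lemma summable_term (D : Data α Q p) (m : ℤ) (x : UnitAddCircle) :
    Summable (fun k => term α Q p k m x) :=
  Summable.of_norm_bounded (summable_b.mul_left (2 * Real.pi * |(m : ℝ)|))
    (fun k => term_abs_le D k m x)

/-- The function. -/
def f (α : ℝ) (Q : ℕ → ℕ) (p : ℕ → ℤ) (x : UnitAddCircle) : ℝ := ∑' k, term α Q p k 1 x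

lemma continuous_term (k : ℕ) (m : ℤ) : Continuous (term α Q p k m) := by
  unfold term
  exact continuous_const.mul (continuous_const.mul ((continuous_sinT.comp (by fun_prop)).sub
    (continuous_sinT.comp (by fun_prop))))

lemma continuous_f (D : Data α Q p) : Continuous (f α Q p) := by
  unfold f
  exact continuous_tsum (fun k => continuous_term k 1)
    (summable_b.mul_left (2 * Real.pi * |((1 : ℤ) : ℝ)|)) (fun k x => term_abs_le D k 1 x)

lemma term_step (k : ℕ) (m : ℤ) (x : UnitAddCircle) :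
    term α Q p k (m + 1) x = term α Q p k m x + term α Q p k 1 (x + m • (α : UnitAddCircle)) := by
  unfold term
  rw [add_smul m 1 (α : UnitAddCircle), one_smul, add_assoc]
  ring

lemma sum_step (D : Data α Q p) (m : ℤ) (x : UnitAddCircle) :
    ∑' k, term α Q p k (m + 1) x
      = ∑' k, term α Q p k m x + f α Q p (x + m • (α : UnitAddCircle)) := by
  unfold f
  rw [← (summable_term D m x).tsum_add (summable_term D 1 _)]
  exact tsum_congr fun k => term_step k m x

lemma birkhoff_eq (D : Data α Q p) (m : ℤ) (x : UnitAddCircle) :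
    birkhoff (α : UnitAddCircle) (f α Q p) m x = ∑' k, term α Q p k m x := by
  have h0 : ∑' k, term α Q p k 0 x = 0 := by simp [term]
  cases m with
  | ofNat n =>
    show ∑ j ∈ Finset.range n, f α Q p (x + j • (α : UnitAddCircle)) = _
    induction n with
    | zero => simp [h0]
    | succ n ih =>
      rw [Finset.sum_range_succ, ih]
      have := sum_step D n x
      rw [natCast_zsmul] at this
      simp only [Int.ofNat_eq_natCast, Nat.cast_add, Nat.cast_one] at *
      exact this.symm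
  | negSucc n =>
    show -∑ j ∈ Finset.range (n + 1), f α Q p (x - (j + 1) • (α : UnitAddCircle)) = _
    have key : ∀ n : ℕ, -∑ j ∈ Finset.range n, f α Q p (x - (j + 1) • (α : UnitAddCircle))
        = ∑' k, term α Q p k (-(n : ℤ)) x := by
      intro n
      induction n with
      | zero => simp [h0]
      | succ n ih =>
        rw [Finset.sum_range_succ, neg_add, ih]
        have := sum_step D (-((n + 1 : ℕ) : ℤ)) x
        rw [show -((n + 1 : ℕ) : ℤ) + 1 = -(n : ℤ) by push_cast; ring, neg_smul, natCast_zsmul,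
          ← sub_eq_add_neg] at this
        linarith
    rw [key (n + 1), Int.negSucc_eq]
    push_cast
    rfl

lemma integral_f (D : Data α Q p) : ∫ x, f α Q p x = 0 := by
  have h1 : ∀ k, ∫ x, term α Q p k 1 x = 0 := by
    intro k
    have hc : Continuous fun x : UnitAddCircle => sinT (((Q k : ℕ) : ℤ) • x) :=
      continuous_sinT.comp (by fun_prop)
    have hi : Integrable fun x : UnitAddCircle => sinT (((Q k : ℕ) : ℤ) • x) :=
      hc.integrable_of_hasCompactSupport (HasCompactSupport.of_compactSpace _)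
    unfold term
    rw [integral_const_mul, integral_const_mul, integral_sub (by
      exact (hi.comp_add_right ((1 : ℤ) • (α : UnitAddCircle)))) hi,
      integral_add_right_eq_self (fun x : UnitAddCircle => sinT (((Q k : ℕ) : ℤ) • x))
        ((1 : ℤ) • (α : UnitAddCircle)), sub_self, mul_zero, mul_zero]
  have h2 : ∀ k, Integrable (fun x => term α Q p k 1 x) := fun k =>
    (continuous_term k 1).integrable_of_hasCompactSupport (HasCompactSupport.of_compactSpace _)
  unfold f
  rw [← integral_tsum_of_summable_integral_norm h2]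
  · simp [h1]
  · have h3 : ∀ k, ∫ x, ‖term α Q p k 1 x‖ ≤ 2 * Real.pi * b k := by
      intro k
      have : ∫ x, ‖term α Q p k 1 x‖ ≤ ∫ _x : UnitAddCircle, 2 * Real.pi * b k := by
        apply integral_mono (h2 k).norm (integrable_const _)
        intro x
        have := term_abs_le D k 1 x
        simpa using this
      simpa [measureReal_def, UnitAddCircle.measure_univ] using this
    exact Summable.of_nonneg_of_le (fun k => integral_nonneg fun x => norm_nonneg _) h3
      (summable_b.mul_left _)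

/-! ### The main estimate -/

/-- all `Q_k x` are in `[0, 1/16]` modulo `1` -/
def Good (Q : ℕ → ℕ) (x : UnitAddCircle) : Prop :=
  ∀ k : ℕ, ∃ t : ℝ, 0 ≤ t ∧ t ≤ 1 / 16 ∧ ((Q k : ℕ) : ℤ) • x = (t : UnitAddCircle)

lemma term_ge_two (D : Data α Q p) {x : UnitAddCircle} (k : ℕ) (m : ℤ) :
    |term α Q p k m x| ≤ 2 * A α Q p k := by
  unfold term
  rw [abs_mul, abs_mul, abs_sg, one_mul, abs_of_pos (A_pos D k)]
  have h1 := abs_sinT_le (((Q k : ℕ) : ℤ) • (x + m • (α : UnitAddCircle)))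
  have h2 := abs_sinT_le (((Q k : ℕ) : ℤ) • x)
  have h3 := abs_sub (sinT (((Q k : ℕ) : ℤ) • (x + m • (α : UnitAddCircle))))
    (sinT (((Q k : ℕ) : ℤ) • x))
  have := A_pos D k
  nlinarith

/-- the sign of `ε` times the `k`-th term -/
lemma term_sign (D : Data α Q p) {x : UnitAddCircle} (hx : Good Q x) {ε : ℤ}
    (hε : ε = 1 ∨ ε = -1) (k n : ℕ) (hn : n * dl α Q p k ≤ 1 / 16) :
    2 * n * b k ≤ ε * term α Q p k (ε * n) x := by
  obtain ⟨t, ht0, ht, htx⟩ := hx k
  have hδ := dl_pos D k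
  have hA := A_pos D k
  have h1 : 0 ≤ n * dl α Q p k := by positivity
  have h2 : (2 * (n * dl α Q p k)) ≤ ε * (sg α Q p k *
      (sinT (((Q k : ℕ) : ℤ) • (x + (ε * n : ℤ) • (α : UnitAddCircle))) -
      sinT (((Q k : ℕ) : ℤ) • x))) := by
    rw [smul_add, Q_smul (α := α) (p := p), htx, ← AddCircle.coe_add, sinT_coe, sinT_coe]
    have i1 := sin_inc ht0 ht h1 hn
    have i2 := sin_dec ht0 ht h1 hn
    rcases hε with rfl | rfl <;> rcases sg_cases (α := α) (Q := Q) (p := p) k with h | h <;>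
      rw [h] <;> push_cast
    · rw [show t + 1 * (n : ℝ) * (1 * dl α Q p k) = t + n * dl α Q p k by ring]
      linarith
    · rw [show t + 1 * (n : ℝ) * (-1 * dl α Q p k) = t + -(n * dl α Q p k) by ring]
      linarith
    · rw [show t + -1 * (n : ℝ) * (1 * dl α Q p k) = t + -(n * dl α Q p k) by ring]
      linarith
    · rw [show t + -1 * (n : ℝ) * (-1 * dl α Q p k) = t + n * dl α Q p k by ring]
      linarith
  unfold term
  have h3 := A_mul D k
  calc 2 * (n : ℝ) * b k = 2 * n * (A α Q p k * dl α Q p k) := by rw [h3]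
    _ = A α Q p k * (2 * (n * dl α Q p k)) := by ring
    _ ≤ A α Q p k * _ := mul_le_mul_of_nonneg_left h2 hA.le
    _ = _ := by ring

lemma main_est (D : Data α Q p) {x : UnitAddCircle} (hx : Good Q x) {ε : ℤ}
    (hε : ε = 1 ∨ ε = -1) (n : ℕ) (hn : 1 / dl α Q p 255 ≤ n) :
    Real.sqrt n / 2 ≤ ε * ∑' k, term α Q p k (ε * n) x := by
  have hn0 : (0 : ℝ) < n := lt_of_lt_of_le (by have := dl_pos D 255; positivity) hn
  have hex : ∃ K, (n : ℝ) * dl α Q p K ≤ 1 / 16 := by
    have h := (tendsto_dl D).const_mul (n : ℝ)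
    rw [mul_zero] at h
    exact (h.eventually (ge_mem_nhds (show (0 : ℝ) < 1 / 16 by norm_num))).exists
  classical
  set K := Nat.find hex with hK
  have h1 : (n : ℝ) * dl α Q p K ≤ 1 / 16 := Nat.find_spec hex
  -- `K` is large
  have hK256 : 256 ≤ K := by
    by_contra hcon
    push Not at hcon
    have h2 : dl α Q p 255 ≤ dl α Q p K := dl_anti D (by omega)
    rw [div_le_iff₀ (dl_pos D 255)] at hn
    have h3 : (n : ℝ) * dl α Q p 255 ≤ n * dl α Q p K := by gcongr
    linarith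
  obtain ⟨L, hL⟩ : ∃ L, K = L + 1 := ⟨K - 1, by omega⟩
  have hLmin : 1 / 16 < (n : ℝ) * dl α Q p L := by
    have := Nat.find_min hex (m := L) (by omega)
    push Not at this
    exact this
  have hKR : (256 : ℝ) ≤ K := by exact_mod_cast hK256
  -- the terms before `K`
  have hlow : -(4 * A α Q p L) ≤ ∑ k ∈ Finset.range K, (ε * term α Q p k (ε * n) x : ℝ) := by
    have h2 : ∀ k ∈ Finset.range K, -(2 * A α Q p k) ≤ (ε * term α Q p k (ε * n) x : ℝ) := by
      intro k _
      have := term_ge_two D (x := x) k (ε * n)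
      rw [abs_le] at this
      rcases hε with rfl | rfl
      · push_cast; linarith [this.1]
      · push_cast; linarith [this.2]
    have h3 := Finset.sum_le_sum h2
    rw [Finset.sum_neg_distrib, ← Finset.mul_sum] at h3
    have h4 := sum_A D L
    rw [← hL] at h4
    linarith
  have hAL : A α Q p L ≤ 16 * n * b L := by
    have h2 := dl_pos D L
    unfold A
    rw [div_le_iff₀ h2]
    have h3 := b_pos L
    nlinarith
  -- the terms from `K` on
  have hsum : Summable (fun k => (ε * term α Q p (k + K) (ε * n) x : ℝ)) :=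
    ((summable_nat_add_iff K).2 (summable_term D (ε * n) x)).mul_left _
  have hpos : ∀ k, 2 * n * b (k + K) ≤ (ε * term α Q p (k + K) (ε * n) x : ℝ) := by
    intro k
    apply term_sign D hx hε
    have h2 : dl α Q p (k + K) ≤ dl α Q p K := dl_anti D (by omega)
    exact (mul_le_mul_of_nonneg_left h2 hn0.le).trans h1
  have hhigh : (n : ℝ) / (K + 1) ≤ ∑' k, (ε * term α Q p (k + K) (ε * n) x : ℝ) := by
    have h2 : ∑ k ∈ Finset.range (K + 1), (2 * n * b (k + K) : ℝ) ≤
        ∑' k, (ε * term α Q p (k + K) (ε * n) x : ℝ) := by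
      refine (Finset.sum_le_sum fun k _ => hpos k).trans ?_
      exact hsum.sum_le_tsum _ (fun k _ => le_trans (by have := b_pos (k + K); positivity) (hpos k))
    refine le_trans (le_of_eq ?_) h2
    rw [← Finset.mul_sum, sum_b]
    push_cast
    have hK1 : (K : ℝ) + 1 ≠ 0 := by positivity
    have hK2 : (K : ℝ) + 1 + K + 1 ≠ 0 := by positivity
    field_simp
    ring
  have htot : ∑' k, (ε * term α Q p k (ε * n) x : ℝ) =
      ∑ k ∈ Finset.range K, (ε * term α Q p k (ε * n) x : ℝ)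
        + ∑' k, (ε * term α Q p (k + K) (ε * n) x : ℝ) :=
    (((summable_term D (ε * n) x).mul_left (ε : ℝ)).sum_add_tsum_nat_add K).symm
  rw [← tsum_mul_left, htot]
  have hbL : b L = 1 / ((K : ℝ) * (K + 1)) := by
    unfold b
    rw [hL]
    push_cast
    ring
  -- numerical estimates
  have hA2 : 4 * A α Q p L ≤ n / (2 * (K + 1)) := by
    have h2 : 4 * A α Q p L ≤ 64 * n * (1 / ((K : ℝ) * (K + 1))) := by rw [← hbL]; linarith
    refine h2.trans ?_
    rw [mul_one_div, div_le_div_iff₀ (by positivity) (by positivity)]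
    nlinarith [mul_pos hn0 (show (0 : ℝ) < K + 1 by positivity)]
  have hsq : (K : ℝ) + 1 ≤ Real.sqrt n := by
    apply Real.le_sqrt_of_sq_le
    have hQL : (0 : ℝ) < Q L := by exact_mod_cast D.fast.pos L
    have h2 : (Q L : ℝ) ≤ 16 * n := by
      have h3 := dl_le D L
      have h4 : (n : ℝ) * dl α Q p L ≤ n * (1 / Q L) := by gcongr
      have h5 : 1 / 16 < (n : ℝ) * (1 / Q L) := hLmin.trans_le h4
      rw [mul_one_div, div_lt_div_iff₀ (by norm_num) hQL] at h5
      linarith
    have h3 : 16 * (L + 2) ^ 2 ≤ 4 ^ (L ^ 2) := by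
      have h4 : L + 2 ≤ 4 ^ L := by
        have h5 : L < 2 ^ L := Nat.lt_two_pow_self
        have h6 : 2 ^ L * 2 ≤ 4 ^ L := by
          rw [show (4 : ℕ) = 2 * 2 by norm_num, mul_pow]
          apply Nat.mul_le_mul_left
          calc 2 = 2 ^ 1 := by norm_num
            _ ≤ 2 ^ L := Nat.pow_le_pow_right (by norm_num) (by omega)
        omega
      calc 16 * (L + 2) ^ 2 ≤ 16 * (4 ^ L) ^ 2 := by gcongr
        _ = 4 ^ (2 * L + 2) := by rw [← pow_mul, mul_comm L 2, pow_add]; ring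
        _ ≤ 4 ^ (L ^ 2) := Nat.pow_le_pow_right (by norm_num) (by nlinarith)
    have h4 : ((16 * (L + 2) ^ 2 : ℕ) : ℝ) ≤ Q L := by exact_mod_cast h3.trans (D.fast.big L)
    rw [hL]
    push_cast at h4 ⊢
    linarith
  have hfin : Real.sqrt n / 2 ≤ n / (2 * (K + 1)) := by
    rw [div_le_div_iff₀ (by norm_num) (by positivity)]
    have h2 : Real.sqrt n * Real.sqrt n = n := Real.mul_self_sqrt hn0.le
    nlinarith [Real.sqrt_nonneg (n : ℝ)]
  have h9 : (n : ℝ) / (K + 1) = n / (2 * (K + 1)) + n / (2 * (K + 1)) := by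
    field_simp
    ring
  linarith

lemma birk_ge (D : Data α Q p) {x : UnitAddCircle} (hx : Good Q x) {ε : ℤ}
    (hε : ε = 1 ∨ ε = -1) (n : ℕ) (hn : 1 / dl α Q p 255 ≤ n) :
    Real.sqrt n / 2 ≤ ε * birkhoff (α : UnitAddCircle) (f α Q p) (ε * n) x := by
  rw [birkhoff_eq D]
  exact main_est D hx hε n hn

end

end Pool.Agent.KS6_11.DiscOrb
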